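import Mathlib
import Pool.Agent.H27.GK

namespace Pool.Agent.Results.MP_62f119_co.Full
open Finset Polynomial Pool.Agent.H27.GJ

/-- the indeterminate of the field of rational functions -/
noncomputable def q : RatFunc ℚ := RatFunc.X

/-- the q-integer `[n]` -/
noncomputable def qi (n : ℕ) : RatFunc ℚ := (1 - q ^ n) / (1 - q)

/-- the Gaussian coefficient -/
noncomputable def qb (N K : ℕ) : RatFunc ℚ :=
  if K ≤ N then ∏ i ∈ Icc 1 K, (1 - q ^ (N - K + i)) / (1 - q ^ i) else 0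

/-- the quotient `S` of the problem -/
noncomputable def S (m : ℕ) (n : ℕ → ℕ) (j : ℤ) (a r : ℕ) : RatFunc ℚ :=
  (∑ k ∈ Icc a (n 1), q ^ (j * k ^ 2 - (r + 1) * k) * qi (2 * k) * qi k ^ (2 * r)
    * ∏ i ∈ Icc 1 m, qb (n (i + 1) + n i) (k + n i))
  / (qi (n m + a) * qb (n m + n 1) (n 1 - a))

theorem good : Good q := by
  refine ⟨RatFunc.X_ne_zero, fun i h => ?_⟩
  rw [q, ← RatFunc.algebraMap_X, ← map_pow, ← map_one (algebraMap ℚ[X] (RatFunc ℚ))] at h
  simpa using congrArg natDegree (IsFractionRing.injective ℚ[X] (RatFunc ℚ) h)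

theorem qi_eq (n : ℕ) : qi n = br q n := by simp [qi, br]

theorem qb_eq (N K : ℕ) : qb N K = f q N * (g q K * g q (N - K)) := by
  rcases lt_or_ge N K with h | h
  · rw [qb, if_neg (by omega), g_neg (z := N - K) (by omega)]; simp
  obtain ⟨v, rfl⟩ := Nat.exists_eq_add_of_le' h
  rw [qb, if_pos h, Nat.add_sub_cancel, Nat.cast_add, add_sub_cancel_right, g_nat, g_nat]
  clear h
  induction K with
  | zero => simp [f_ne good, show f q 0 = 1 from prod_range_zero _]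
  | succ K ih =>
    have h1 := good.one
    have h2 : 1 - q ^ (K + 1) ≠ 0 := fun e => good.2 K (sub_eq_zero.mp e).symm
    have h3 := f_ne good K
    have h4 := f_ne good v
    rw [prod_Icc_succ_top (by omega), ih, ← add_assoc, f_succ, f_succ, ← Nat.cast_succ,
      ← Nat.cast_succ, ← qi_eq, ← qi_eq, qi, qi]
    field_simp

def Ls : (ℕ → ℕ) → ℕ → List ℕ
  | _, 0 => []
  | s, m + 1 => s 1 :: Ls (fun i => s (i + 1)) m

theorem Ls_spec (a k m : ℕ) : ∀ s : ℕ → ℕ, (Ls s m).length = m ∧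
    A q a (s 0) (Ls s m) = (∏ i ∈ range m, f q (s (i + 1) + s i)) * f q (s m + a - 1) ∧
    ((Ls s m).map fun y : ℕ => r q y k).prod = ∏ i ∈ range m, r q (s (i + 1)) k := by
  induction m with
  | zero => intro s; simp [Ls, A]
  | succ m ih =>
    intro s
    obtain ⟨h1, h2, h3⟩ := ih fun i => s (i + 1)
    refine ⟨by simp [Ls, h1], ?_, ?_⟩
    · rw [Ls, A, prod_range_succ', add_comm (s 0)]
      simp only [zero_add] at h2 ⊢
      rw [h2]; ring
    · rw [Ls, List.map_cons, List.prod_cons, h3, prod_range_succ', mul_comm]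

theorem S_eq (m : ℕ) (n : ℕ → ℕ) (hn : 0 < n (m + 1)) (hc : n (m + 1 + 1) = n 1) (j : ℤ) (a p : ℕ)
    (ha : a ≤ n 1) : S (m + 1) n j a p = T q p a (n 1 + 1) j (n 1) (Ls (fun i => n (i + 1)) m) := by
  have e0 : n (m + 1) + a = n (m + 1) + a - 1 + 1 := by omega
  have b := br_ne good (n (m + 1) + a - 1)
  have e1 := f_succ (q := q) (n (m + 1) + a - 1)
  rw [← Nat.cast_succ, Nat.succ_eq_add_one, ← e0] at b e1
  have h1 := f_ne good (n (m + 1) + n 1)
  have h2 := f_ne good (n 1 - a)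
  have h3 := f_ne good (n (m + 1) + a - 1)
  have := (Ls_spec a 0 m fun i => n (i + 1)).2.1
  rw [zero_add] at this
  rw [S, T, I, this, qb_eq, show ((n (m + 1) + n 1 : ℕ) : ℤ) - (n 1 - a : ℕ) = (n (m + 1) + a : ℕ) by
    omega, g_nat, g_nat, e1, qi_eq, sum_div, mul_sum]
  refine sum_congr rfl fun k _ => ?_
  have e2 : ∏ i ∈ range (m + 1), g q (n (i + 1 + 1) - k) = ∏ i ∈ range (m + 1), g q (n (i + 1) - k) := by
    rw [prod_range_succ, prod_range_succ', hc]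
  have e3 : ∏ i ∈ Icc 1 (m + 1), qb (n (i + 1) + n i) (k + n i)
      = (∏ i ∈ range (m + 1), f q (n (i + 1 + 1) + n (i + 1))) * ∏ i ∈ range (m + 1), r q (n (i + 1)) k := by
    simp only [r, prod_mul_distrib]
    rw [← e2, ← prod_mul_distrib, ← prod_mul_distrib, ← Ico_add_one_right_eq_Icc,
      prod_Ico_eq_prod_range]
    refine prod_congr rfl fun i _ => ?_
    rw [qb_eq, add_comm 1 i]
    push_cast
    rw [add_comm (k : ℤ), add_comm (n (i + 1) : ℤ) k, add_sub_add_right_eq_sub, add_comm (k : ℤ)]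
  rw [e3, prod_range_succ, prod_range_succ', List.map_cons, List.prod_cons,
    (Ls_spec a k m fun i => n (i + 1)).2.2, hc, add_comm (n 1), w, xx, qi_eq, qi_eq, mul_pow,
    ← pow_mul, ← zpow_natCast (q ^ (-k : ℤ)), ← zpow_mul,
    show j * k ^ 2 - (p + 1) * k = j * k ^ 2 + -k + -k * p by ring, zpow_add₀ good.1, zpow_add₀ good.1]
  push_cast at b ⊢
  field_simp

noncomputable def LP (R : Type) [CommSemiring R] [Algebra R (RatFunc ℚ)] : Subsemiring (RatFunc ℚ) where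
  carrier := {x | ∃ (N : ℕ) (p : R[X]), x = aeval q p / q ^ N}
  mul_mem' := by
    rintro _ _ ⟨N, p, rfl⟩ ⟨M, s, rfl⟩
    exact ⟨N + M, p * s, by rw [map_mul, pow_add, div_mul_div_comm]⟩
  one_mem' := ⟨0, 1, by simp⟩
  add_mem' := by
    rintro _ _ ⟨N, p, rfl⟩ ⟨M, s, rfl⟩
    have := good.1
    exact ⟨N + M, p * X ^ M + X ^ N * s, by simp; field_simp; ring⟩
  zero_mem' := ⟨0, 0, by simp⟩

theorem result (m : ℕ) (hm : 1 ≤ m) (n : ℕ → ℕ) (hn : ∀ i ∈ Icc 1 m, 0 < n i)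
    (hc : n (m + 1) = n 1) (j : ℤ) (a r : ℕ) (ha : a ≤ n 1) :
    (∃ (N : ℕ) (p : ℤ[X]), S m n j a r = aeval q p / q ^ N) ∧
    (0 ≤ j → j ≤ m → ∃ (N : ℕ) (p : ℕ[X]), S m n j a r = aeval q p / q ^ N) := by
  obtain ⟨m, rfl⟩ : ∃ k, m = k + 1 := ⟨m - 1, by omega⟩
  rw [S_eq m n (hn _ (by simp)) hc j a r ha]
  refine ⟨lau (S := LP ℤ) good ⟨0, X, by simp⟩ ⟨1, 1, by simp⟩ ⟨0, -1, by simp⟩ _ j _ (by omega),
    fun h0 h1 => pos (S := LP ℕ) _ q good ⟨0, X, by simp⟩ ⟨1, 1, by simp⟩ j _ (by omega) h0 ?_⟩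
  rw [(Ls_spec 0 0 m _).1]
  exact_mod_cast h1

end Pool.Agent.Results.MP_62f119_co.Full
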